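import Pool.Agent.Helper48.KM.Stmts

/-! # EV1: the family for e = 4 -/

set_option autoImplicit false

namespace Pool.Agent.Helper48.KM

open LaurentPolynomial

/-- the identity behind the family -/
theorem ev1_id (A C' α δ w1 w2 w : ℂ) (hw : w1 ≠ 0)
    (h1 : α ^ 3 + A * α + C' = δ * (3 * α ^ 2 + A))
    (h2 : w1 * (α ^ 3 + A * α + C') = -1)
    (h3 : ((α - δ) ^ 3 + A * (α - δ) + C') * w1 ^ 2 * w2 = -(δ * w1) ^ 3) :
    ((α - δ) * w + δ * w1) ^ 3 + A * ((α - δ) * w + δ * w1) * w ^ 2 + C' * w ^ 3 + w ^ 2 =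
      ((α - δ) ^ 3 + A * (α - δ) + C') * (w - w1) ^ 2 * (w - w2) := by
  have h4 : w1 ^ 2 ≠ 0 := pow_ne_zero 2 hw
  apply mul_left_cancel₀ h4
  linear_combination (w ^ 2 - 2 * w * w1 + w1 ^ 2) * h3 + (w ^ 2 * w1 ^ 3 - w * w1 ^ 4) * h1 +
    w ^ 2 * w1 ^ 2 * h2

theorem ev1_T (s : ℂˣ) : LaurentPolynomial.eval₂ (RingHom.id ℂ) s (T (-1)) = (s : ℂ)⁻¹ := by
  rw [LaurentPolynomial.eval₂_T]
  simp

theorem ev1_T1 (s : ℂˣ) : LaurentPolynomial.eval₂ (RingHom.id ℂ) s (T 1) = (s : ℂ) := by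
  rw [LaurentPolynomial.eval₂_T]
  simp

theorem ev1_curve (A C' α : ℂ) (h0 : α ^ 3 + A * α + C' ≠ 0) (h1 : 3 * α ^ 2 + A ≠ 0) (ξ : ℂ)
    (hξ : ξ = α - (α ^ 3 + A * α + C') / (3 * α ^ 2 + A))
    (h2 : ξ ^ 3 + A * ξ + C' ≠ 0) :
    ∃ f : Fin 3 → LaurentPolynomial ℂ, IsGm (surfLow 4 A C') f ∧ Lim 2 f ξ := by
  obtain ⟨δ, hδ⟩ : ∃ δ, δ = (α ^ 3 + A * α + C') / (3 * α ^ 2 + A) := ⟨_, rfl⟩
  rw [← hδ] at hξ
  have hδ0 : δ ≠ 0 := by
    rw [hδ]
    exact div_ne_zero h0 h1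
  have e1 : α ^ 3 + A * α + C' = δ * (3 * α ^ 2 + A) := by
    rw [hδ, div_mul_cancel₀ _ h1]
  obtain ⟨w1, hw1⟩ : ∃ w1, w1 = -1 / (α ^ 3 + A * α + C') := ⟨_, rfl⟩
  have e2 : w1 * (α ^ 3 + A * α + C') = -1 := by
    rw [hw1, div_mul_cancel₀ _ h0]
  have hw0 : w1 ≠ 0 := by
    intro h
    rw [h, zero_mul] at e2
    exact absurd e2 (by norm_num)
  obtain ⟨w2, hw2⟩ : ∃ w2, w2 = -(δ * w1) ^ 3 / ((ξ ^ 3 + A * ξ + C') * w1 ^ 2) := ⟨_, rfl⟩
  have hden : (ξ ^ 3 + A * ξ + C') * w1 ^ 2 ≠ 0 := mul_ne_zero h2 (pow_ne_zero 2 hw0)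
  have e3 : (ξ ^ 3 + A * ξ + C') * w1 ^ 2 * w2 = -(δ * w1) ^ 3 := by
    rw [hw2, mul_div_cancel₀ _ hden]
  have hw20 : w2 ≠ 0 := by
    rw [hw2]
    exact div_ne_zero (neg_ne_zero.mpr (pow_ne_zero 3 (mul_ne_zero hδ0 hw0))) hden
  obtain ⟨ρ, hρ⟩ := IsAlgClosed.exists_pow_nat_eq (ξ ^ 3 + A * ξ + C') (n := 2) two_pos
  rw [hξ] at e3
  have key := fun w : ℂ => ev1_id A C' α δ w1 w2 w hw0 e1 e2 e3
  rw [← hξ] at key
  let z : LaurentPolynomial ℂ := T (-1) + C (w2 / 4) * T 1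
  let m : LaurentPolynomial ℂ := T (-1) - C (w2 / 4) * T 1
  let f : Fin 3 → LaurentPolynomial ℂ :=
    ![z, C ξ * z ^ 2 + C (δ * w1), C ρ * (z ^ 2 - C w1) * m]
  have v0 : ∀ s : ℂˣ, val f s 0 = (s : ℂ)⁻¹ + w2 / 4 * s := by
    intro s
    show LaurentPolynomial.eval₂ (RingHom.id ℂ) s z = _
    simp only [z]
    rw [map_add, map_mul, ev1_T, ev1_T1, LaurentPolynomial.eval₂_C, RingHom.id_apply]
  have v1 : ∀ s : ℂˣ, val f s 1 = ξ * val f s 0 ^ 2 + δ * w1 := by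
    intro s
    show LaurentPolynomial.eval₂ (RingHom.id ℂ) s (C ξ * z ^ 2 + C (δ * w1)) =
      ξ * (LaurentPolynomial.eval₂ (RingHom.id ℂ) s z) ^ 2 + δ * w1
    rw [map_add, map_mul, map_pow, LaurentPolynomial.eval₂_C, LaurentPolynomial.eval₂_C,
      RingHom.id_apply, RingHom.id_apply]
  have v2 : ∀ s : ℂˣ, val f s 2 = ρ * (val f s 0 ^ 2 - w1) * ((s : ℂ)⁻¹ - w2 / 4 * s) := by
    intro s
    show LaurentPolynomial.eval₂ (RingHom.id ℂ) s (C ρ * (z ^ 2 - C w1) * m) =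
      ρ * ((LaurentPolynomial.eval₂ (RingHom.id ℂ) s z) ^ 2 - w1) * _
    rw [map_mul, map_mul, map_sub, map_pow, LaurentPolynomial.eval₂_C, LaurentPolynomial.eval₂_C,
      RingHom.id_apply, RingHom.id_apply]
    simp only [m]
    rw [map_sub, map_mul, ev1_T, ev1_T1, LaurentPolynomial.eval₂_C, RingHom.id_apply]
  refine ⟨f, ⟨fun s => ?_, ?_⟩, 1, 1 + Polynomial.C (w2 / 4) * Polynomial.X ^ 2,
    Polynomial.C ξ * (1 + Polynomial.C (w2 / 4) * Polynomial.X ^ 2) ^ 2 +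
      Polynomial.C (δ * w1) * Polynomial.X ^ 2, le_rfl, ?_, ?_, fun s => ?_⟩
  · have hs : (s : ℂ) ≠ 0 := s.ne_zero
    have hm : ((s : ℂ)⁻¹ - w2 / 4 * s) ^ 2 = val f s 0 ^ 2 - w2 := by
      rw [v0]
      field_simp
      ring
    refine ⟨?_, ?_⟩
    · rw [v2, mul_pow, mul_pow, hm, hρ, v1]
      have := key (val f s 0 ^ 2)
      rw [← this]
      ring
    · rintro ⟨hz, hxy⟩
      rw [v1, v2] at hxy
      rw [hz] at hxy hm
      rcases mul_eq_zero.mp hxy with h | h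
      · apply mul_ne_zero hδ0 hw0
        rw [← h]
        ring
      · rcases mul_eq_zero.mp h with h | h
        · rcases mul_eq_zero.mp h with h | h
          · rw [h] at hρ
            rw [zero_pow two_ne_zero] at hρ
            exact h2 hρ.symm
          · apply hw0
            rw [zero_pow two_ne_zero, zero_sub, neg_eq_zero] at h
            exact h
        · rw [h] at hm
          apply hw20
          rw [zero_pow two_ne_zero, zero_sub] at hm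
          exact neg_eq_zero.mp hm.symm
  · by_contra hcon
    push Not at hcon
    have c1 := congrFun (hcon 1 (-1)) 0
    have c2 := congrFun (hcon (Units.mk0 2 two_ne_zero) (-Units.mk0 2 two_ne_zero)) 0
    rw [v0, v0] at c1 c2
    simp only [Units.val_one, Units.val_neg, Units.val_mk0] at c1 c2
    norm_num at c1 c2
    have d1 : w2 = -4 := by linear_combination 2 * c1
    rw [d1] at c2
    norm_num at c2
  · simp
  · simp
  · have hs : (s : ℂ) ≠ 0 := s.ne_zero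
    refine ⟨?_, ?_⟩
    · rw [v0]
      simp
      field_simp
    · rw [v1, v0]
      simp
      field_simp

theorem ev1_fin (A C' ξ : ℂ) : {α : ℂ | 2 * α ^ 3 - 3 * ξ * α ^ 2 - A * ξ - C' = 0}.Finite := by
  let p : Polynomial ℂ := Polynomial.C 2 * Polynomial.X ^ 3 -
    Polynomial.C (3 * ξ) * Polynomial.X ^ 2 - Polynomial.C (A * ξ) - Polynomial.C C'
  have hp : p ≠ 0 := by
    intro h
    have h3 : Polynomial.coeff p 3 = 2 := by
      simp only [p, Polynomial.coeff_sub, Polynomial.coeff_C_mul, Polynomial.coeff_X_pow,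
        Polynomial.coeff_X, Polynomial.coeff_C]
      norm_num
    rw [h] at h3
    simp at h3
  refine (Polynomial.finite_setOfPred_isRoot hp).subset ?_
  intro α hα
  show p.eval α = 0
  simp only [p, Polynomial.eval_sub, Polynomial.eval_mul, Polynomial.eval_pow, Polynomial.eval_X,
    Polynomial.eval_C]
  exact hα

theorem ev1_fin2 (A : ℂ) : {α : ℂ | 3 * α ^ 2 + A = 0}.Finite := by
  let p : Polynomial ℂ := Polynomial.C 3 * Polynomial.X ^ 2 + Polynomial.C A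
  have hp : p ≠ 0 := by
    intro h
    have := congrArg (fun q => Polynomial.coeff q 2) h
    simp [p] at this
  refine (Polynomial.finite_setOfPred_isRoot hp).subset ?_
  intro α hα
  show p.eval α = 0
  simp only [p, Polynomial.eval_add, Polynomial.eval_mul, Polynomial.eval_pow, Polynomial.eval_X,
    Polynomial.eval_C]
  exact hα

theorem ev1_fin3 (A C' : ℂ) : {α : ℂ | α ^ 3 + A * α + C' = 0}.Finite := by
  let p : Polynomial ℂ := Polynomial.X ^ 3 + Polynomial.C A * Polynomial.X + Polynomial.C C'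
  have hp : p ≠ 0 := by
    intro h
    have := congrArg (fun q => Polynomial.coeff q 3) h
    simp [p] at this
  refine (Polynomial.finite_setOfPred_isRoot hp).subset ?_
  intro α hα
  show p.eval α = 0
  simp only [p, Polynomial.eval_add, Polynomial.eval_mul, Polynomial.eval_pow, Polynomial.eval_X,
    Polynomial.eval_C]
  exact hα

theorem st_EV1 (h1 : ST_UNC) : ST_EV1 := by
  intro A C' _
  let φ : ℂ → ℂ := fun α => α - (α ^ 3 + A * α + C') / (3 * α ^ 2 + A)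
  -- fibres
  have hfib : ∀ ξ : ℂ, {α : ℂ | 3 * α ^ 2 + A ≠ 0 ∧ φ α = ξ}.Finite := by
    intro ξ
    refine (ev1_fin A C' ξ).subset ?_
    rintro α ⟨ha, hb⟩
    show 2 * α ^ 3 - 3 * ξ * α ^ 2 - A * ξ - C' = 0
    have hb' : α - (α ^ 3 + A * α + C') / (3 * α ^ 2 + A) = ξ := hb
    have h2 : α ^ 3 + A * α + C' = (α - ξ) * (3 * α ^ 2 + A) := by
      have h3 : α - ξ = (α ^ 3 + A * α + C') / (3 * α ^ 2 + A) := by
        linear_combination hb'
      rw [h3, div_mul_cancel₀ _ ha]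
    linear_combination -h2
  let S : Set ℂ := {α | α ^ 3 + A * α + C' ≠ 0 ∧ 3 * α ^ 2 + A ≠ 0 ∧
    φ α ^ 3 + A * φ α + C' ≠ 0}
  have hS : Sᶜ.Finite := by
    have hU : ({α : ℂ | α ^ 3 + A * α + C' = 0} ∪ {α : ℂ | 3 * α ^ 2 + A = 0} ∪
        ⋃ β ∈ {β : ℂ | β ^ 3 + A * β + C' = 0}, {α : ℂ | 3 * α ^ 2 + A ≠ 0 ∧ φ α = β}).Finite :=
      ((ev1_fin3 A C').union (ev1_fin2 A)).union
        ((ev1_fin3 A C').biUnion (fun β _ => hfib β))
    refine hU.subset ?_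
    intro α hα
    by_cases a1 : α ^ 3 + A * α + C' = 0
    · exact Or.inl (Or.inl a1)
    by_cases a2 : 3 * α ^ 2 + A = 0
    · exact Or.inl (Or.inr a2)
    right
    rw [Set.mem_iUnion₂]
    refine ⟨φ α, ?_, a2, rfl⟩
    by_contra a3
    exact hα ⟨a1, a2, a3⟩
  have hun := h1 S (fun α => if 3 * α ^ 2 + A ≠ 0 then φ α else α) hS (by
    intro ξ
    refine (hfib ξ).subset ?_
    rintro α ⟨ha, hb⟩
    refine ⟨ha.2.1, ?_⟩
    simp only [if_pos ha.2.1] at hb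
    exact hb)
  intro hc
  apply hun
  refine hc.mono ?_
  rintro ξ ⟨α, ha, hb⟩
  simp only [if_pos ha.2.1] at hb
  exact ev1_curve A C' α ha.1 ha.2.1 ξ hb.symm (by rw [← hb]; exact ha.2.2)

end Pool.Agent.Helper48.KM
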